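import Pool.Agent.Helper19.SDim.Spec

/-!
# SDim, part CANTOR
-/

set_option linter.all false

noncomputable section

open MeasureTheory Filter Set Metric
open scoped Topology ENNReal NNReal

namespace Helper46.SDim

open Helper19.SDim

/-- the number with the digits `a` in base `1 / l` -/
def nm (l : ℝ) (a : ℕ → Fin 2) : ℝ := ∑' n, ((a n : ℕ) : ℝ) * l ^ n

section nm

variable {l : ℝ} (hl : 0 < l) (hl2 : l < 1 / 2)

theorem dig_le (x : Fin 2) : ((x : ℕ) : ℝ) ≤ 1 := by
  have : (x : ℕ) ≤ 1 := by omega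
  exact_mod_cast this

theorem dig_nonneg (x : Fin 2) : (0 : ℝ) ≤ ((x : ℕ) : ℝ) := Nat.cast_nonneg _

include hl hl2

theorem nm_sum (a : ℕ → Fin 2) : Summable fun n => ((a n : ℕ) : ℝ) * l ^ n := by
  refine Summable.of_nonneg_of_le (fun n => by positivity) (fun n => ?_)
    (summable_geometric_of_lt_one hl.le (by linarith))
  calc ((a n : ℕ) : ℝ) * l ^ n ≤ 1 * l ^ n := mul_le_mul_of_nonneg_right (dig_le _) (by positivity)
    _ = l ^ n := one_mul _

theorem nm_nonneg (a : ℕ → Fin 2) : 0 ≤ nm l a := tsum_nonneg fun n => by positivity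

theorem nm_succ (a : ℕ → Fin 2) : nm l a = ((a 0 : ℕ) : ℝ) + l * nm l (fun n => a (n + 1)) := by
  unfold nm
  rw [(nm_sum hl hl2 a).tsum_eq_zero_add, pow_zero, mul_one, ← tsum_mul_left]
  congr 1
  refine tsum_congr fun n => ?_
  rw [pow_succ]; ring

theorem nm_le (a : ℕ → Fin 2) : nm l a ≤ 2 := by
  have h1 : nm l a ≤ ∑' n : ℕ, l ^ n := by
    refine (nm_sum hl hl2 a).tsum_le_tsum (fun n => ?_)
      (summable_geometric_of_lt_one hl.le (by linarith))
    calc ((a n : ℕ) : ℝ) * l ^ n ≤ 1 * l ^ n :=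
          mul_le_mul_of_nonneg_right (dig_le _) (by positivity)
      _ = l ^ n := one_mul _
  rw [tsum_geometric_of_lt_one hl.le (by linarith)] at h1
  refine h1.trans ?_
  rw [inv_le_comm₀ (by linarith) (by norm_num)]
  norm_num
  linarith

theorem nm_close (n : ℕ) : ∀ a a' : ℕ → Fin 2, (∀ k < n, a k = a' k) →
    |nm l a - nm l a'| ≤ 2 * l ^ n := by
  induction n with
  | zero =>
    intro a a' _
    rw [pow_zero, mul_one, abs_le]
    constructor <;> linarith [nm_nonneg hl hl2 a, nm_nonneg hl hl2 a', nm_le hl hl2 a,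
      nm_le hl hl2 a']
  | succ n ih =>
    intro a a' h
    have h1 := ih (fun n => a (n + 1)) (fun n => a' (n + 1)) fun k hk => h (k + 1) (by omega)
    rw [nm_succ hl hl2 a, nm_succ hl hl2 a', h 0 (by omega)]
    have h2 : ((a' 0 : ℕ) : ℝ) + l * nm l (fun n => a (n + 1)) - (((a' 0 : ℕ) : ℝ) +
      l * nm l (fun n => a' (n + 1))) = l * (nm l (fun n => a (n + 1)) -
        nm l (fun n => a' (n + 1))) := by ring
    rw [h2, abs_mul, abs_of_pos hl, pow_succ]
    calc l * |nm l (fun n => a (n + 1)) - nm l (fun n => a' (n + 1))| ≤ l * (2 * l ^ n) :=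
          mul_le_mul_of_nonneg_left h1 hl.le
      _ = 2 * (l ^ n * l) := by ring

theorem nm_far (n : ℕ) : ∀ a a' : ℕ → Fin 2, (∀ k < n, a k = a' k) → a n ≠ a' n →
    (1 - 2 * l) * l ^ n ≤ |nm l a - nm l a'| := by
  induction n with
  | zero =>
    intro a a' _ h
    rw [pow_zero, mul_one, nm_succ hl hl2 a, nm_succ hl hl2 a']
    set u := nm l (fun n => a (n + 1)) with hu
    set v := nm l (fun n => a' (n + 1)) with hv
    have u1 : 0 ≤ u := nm_nonneg hl hl2 _
    have u2 : u ≤ 2 := nm_le hl hl2 _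
    have v1 : 0 ≤ v := nm_nonneg hl hl2 _
    have v2 : v ≤ 2 := nm_le hl hl2 _
    have k1 : l * u ≤ l * 2 := mul_le_mul_of_nonneg_left u2 hl.le
    have k2 : l * v ≤ l * 2 := mul_le_mul_of_nonneg_left v2 hl.le
    have k3 : 0 ≤ l * u := by positivity
    have k4 : 0 ≤ l * v := by positivity
    have h0 : ∀ x y : Fin 2, x ≠ y → ((x : ℕ) = 0 ∧ (y : ℕ) = 1) ∨ ((x : ℕ) = 1 ∧ (y : ℕ) = 0) := by
      decide
    rcases h0 _ _ h with ⟨h1, h2⟩ | ⟨h1, h2⟩
    · rw [h1, h2, le_abs]
      right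
      push_cast
      linarith
    · rw [h1, h2, le_abs]
      left
      push_cast
      linarith
  | succ n ih =>
    intro a a' h hn
    have h1 := ih (fun n => a (n + 1)) (fun n => a' (n + 1)) (fun k hk => h (k + 1) (by omega)) hn
    rw [nm_succ hl hl2 a, nm_succ hl hl2 a', h 0 (by omega)]
    have h2 : ((a' 0 : ℕ) : ℝ) + l * nm l (fun n => a (n + 1)) - (((a' 0 : ℕ) : ℝ) +
      l * nm l (fun n => a' (n + 1))) = l * (nm l (fun n => a (n + 1)) -
        nm l (fun n => a' (n + 1))) := by ring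
    rw [h2, abs_mul, abs_of_pos hl, pow_succ]
    calc (1 - 2 * l) * (l ^ n * l) = l * ((1 - 2 * l) * l ^ n) := by ring
      _ ≤ l * |nm l (fun n => a (n + 1)) - nm l (fun n => a' (n + 1))| :=
          mul_le_mul_of_nonneg_left h1 hl.le

theorem nm_cont : Continuous (nm l) := by
  unfold nm
  refine continuous_tsum (u := fun n => l ^ n) (fun n => ?_)
    (summable_geometric_of_lt_one hl.le (by linarith)) fun n a => ?_
  · have : Continuous fun a : ℕ → Fin 2 => ((a n : ℕ) : ℝ) :=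
      (continuous_of_discreteTopology (f := fun x : Fin 2 => ((x : ℕ) : ℝ))).comp
        (continuous_apply n)
    exact this.mul continuous_const
  · rw [Real.norm_eq_abs, abs_of_nonneg (by positivity)]
    calc ((a n : ℕ) : ℝ) * l ^ n ≤ 1 * l ^ n :=
          mul_le_mul_of_nonneg_right (dig_le _) (by positivity)
      _ = l ^ n := one_mul _

end nm

theorem norm_le_of {N : ℕ} (x : E N) {M : ℝ} (hM : 0 ≤ M) (h : ∀ i, |x i| ≤ M) :
    ‖x‖ ≤ N * M := by
  rw [EuclideanSpace.norm_eq, Real.sqrt_le_iff]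
  refine ⟨by positivity, ?_⟩
  calc ∑ i, ‖x i‖ ^ 2 ≤ ∑ i : Fin N, M ^ 2 := Finset.sum_le_sum fun i _ => by
        rw [Real.norm_eq_abs]
        exact pow_le_pow_left₀ (abs_nonneg _) (h i) 2
    _ = N * M ^ 2 := by rw [Finset.sum_const, Finset.card_univ, Fintype.card_fin, nsmul_eq_mul]
    _ ≤ (N * M) ^ 2 := by
        rcases Nat.eq_zero_or_pos N with h0 | h0
        · subst h0; simp
        · have h1 : (1 : ℝ) ≤ N := by exact_mod_cast h0
          rw [mul_pow]
          have h2 : (N : ℝ) ≤ N ^ 2 := by nlinarith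
          exact mul_le_mul_of_nonneg_right h2 (by positivity)

/-- the points of the Cantor set -/
def pt {N : ℕ} (l c : ℝ) (x₀ : E N) (β : Fin N → ℕ → Fin 2) : E N :=
  x₀ + (WithLp.toLp 2 (fun i => c * nm l (β i)) : E N)

theorem pt_sub {N : ℕ} (l c : ℝ) (x₀ : E N) (β β' : Fin N → ℕ → Fin 2) (i : Fin N) :
    (pt l c x₀ β - pt l c x₀ β') i = c * (nm l (β i) - nm l (β' i)) := by
  simp only [pt, PiLp.sub_apply, PiLp.add_apply]
  ring

section pt

variable {N : ℕ} {l c : ℝ} (hl : 0 < l) (hl2 : l < 1 / 2) (hc : 0 < c) (x₀ : E N)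

include hl hl2 hc

theorem pt_cont : Continuous (pt l c x₀) := by
  unfold pt
  refine continuous_const.add ?_
  refine (PiLp.continuous_toLp 2 _).comp ?_
  refine continuous_pi fun i => continuous_const.mul ?_
  exact (nm_cont hl hl2).comp (continuous_apply i)

theorem pt_close (n : ℕ) (β β' : Fin N → ℕ → Fin 2) (h : ∀ i, ∀ k < n, β i k = β' i k) :
    dist (pt l c x₀ β) (pt l c x₀ β') ≤ N * (c * (2 * l ^ n)) := by
  rw [dist_eq_norm]
  apply norm_le_of _ (by positivity)
  intro i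
  rw [pt_sub, abs_mul, abs_of_pos hc]
  exact mul_le_mul_of_nonneg_left (nm_close hl hl2 n _ _ (h i)) hc.le

theorem pt_norm (β : Fin N → ℕ → Fin 2) : dist (pt l c x₀ β) x₀ ≤ N * (c * 2) := by
  rw [dist_eq_norm]
  apply norm_le_of _ (by positivity)
  intro i
  have : (pt l c x₀ β - x₀) i = c * nm l (β i) := by
    simp only [pt, PiLp.sub_apply, PiLp.add_apply]
    ring
  rw [this, abs_mul, abs_of_pos hc, abs_of_nonneg (nm_nonneg hl hl2 _)]
  exact mul_le_mul_of_nonneg_left (nm_le hl hl2 _) hc.le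

theorem pt_far (n : ℕ) (β β' : Fin N → ℕ → Fin 2) (i : Fin N) (h : ∀ k < n, β i k = β' i k)
    (hn : β i n ≠ β' i n) :
    c * ((1 - 2 * l) * l ^ n) ≤ dist (pt l c x₀ β) (pt l c x₀ β') := by
  rw [dist_eq_norm]
  have h1 := PiLp.norm_apply_le (pt l c x₀ β - pt l c x₀ β') i
  refine le_trans ?_ h1
  rw [pt_sub, Real.norm_eq_abs, abs_mul, abs_of_pos hc]
  exact mul_le_mul_of_nonneg_left (nm_far hl hl2 n _ _ h hn) hc.le

end pt

/-- the binary map -/
def bin {N : ℕ} (β : Fin N → ℕ → Fin 2) : Fin N → ℝ := fun i => Real.ofDigits (β i)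

theorem bin_holder {N : ℕ} {l c r : ℝ} (hl : 0 < l) (hl2 : l < 1 / 2) (hc : 0 < c) (x₀ : E N)
    (hr : 0 < r) (hlr : l ^ r = 1 / 2) (β β' : Fin N → ℕ → Fin 2) :
    dist (bin β) (bin β') ≤ ((c * (1 - 2 * l))⁻¹) ^ r *
      dist (pt l c x₀ β) (pt l c x₀ β') ^ r := by
  have h12 : 0 < 1 - 2 * l := by linarith
  have hC : 0 < (c * (1 - 2 * l))⁻¹ := by positivity
  rw [dist_pi_le_iff (by positivity)]
  intro i
  rw [Real.dist_eq]
  show |Real.ofDigits (β i) - Real.ofDigits (β' i)| ≤ _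
  by_cases hβ : β i = β' i
  · rw [hβ, sub_self, abs_zero]; positivity
  · obtain ⟨m, hm⟩ := Function.ne_iff.1 hβ
    classical
    have hex : ∃ n, β i n ≠ β' i n := ⟨m, hm⟩
    set n := Nat.find hex with hn
    have h1 : β i n ≠ β' i n := Nat.find_spec hex
    have h2 : ∀ k < n, β i k = β' i k := fun k hk => not_not.1 (Nat.find_min hex hk)
    have h3 := pt_far hl hl2 hc x₀ n β β' i h2 h1
    have h4 := Real.abs_ofDigits_sub_ofDigits_le h2
    refine h4.trans ?_
    rw [← Real.mul_rpow hC.le dist_nonneg]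
    have h5 : l ^ n ≤ (c * (1 - 2 * l))⁻¹ * dist (pt l c x₀ β) (pt l c x₀ β') := by
      rw [le_inv_mul_iff₀ (by positivity)]
      linarith
    have h6 : ((((2 : ℕ) : ℝ) ^ n)⁻¹) = (l ^ n) ^ r := by
      rw [← Real.rpow_natCast l n, ← Real.rpow_mul hl.le, mul_comm (n : ℝ) r, Real.rpow_mul hl.le,
        hlr, Real.rpow_natCast]
      push_cast
      rw [one_div, inv_pow]
    rw [h6]
    exact Real.rpow_le_rpow (by positivity) h5 hr.le

theorem dimH_range_pt {N : ℕ} (hN : 1 ≤ N) {l c : ℝ} {r : ℝ≥0} (hl : 0 < l) (hl2 : l < 1 / 2)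
    (hc : 0 < c) (x₀ : E N) (hr : 0 < r) (hlr : l ^ (r : ℝ) = 1 / 2) :
    (N : ℝ≥0∞) * r ≤ dimH (range (pt l c x₀)) := by
  classical
  have h12 : 0 < 1 - 2 * l := by linarith
  set C : ℝ≥0 := ⟨((c * (1 - 2 * l))⁻¹) ^ (r : ℝ), by positivity⟩ with hC
  let f : E N → (Fin N → ℝ) := fun x => if h : ∃ β, pt l c x₀ β = x then bin h.choose else 0
  have key : HolderOnWith C r f (range (pt l c x₀)) := by
    rintro x hx y hy
    have hx' : ∃ β, pt l c x₀ β = x := hx
    have hy' : ∃ β, pt l c x₀ β = y := hy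
    have e1 : f x = bin hx'.choose := dif_pos hx'
    have e2 : f y = bin hy'.choose := dif_pos hy'
    have k := bin_holder hl hl2 hc x₀ (NNReal.coe_pos.2 hr) hlr hx'.choose hy'.choose
    rw [hx'.choose_spec, hy'.choose_spec, ← e1, ← e2] at k
    rw [edist_dist, edist_dist, ENNReal.ofReal_rpow_of_nonneg dist_nonneg r.coe_nonneg]
    have e3 : (C : ℝ≥0∞) = ENNReal.ofReal (((c * (1 - 2 * l))⁻¹) ^ (r : ℝ)) := by
      rw [hC, ENNReal.ofReal, Real.toNNReal_of_nonneg (by positivity)]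
      rfl
    rw [e3, ← ENNReal.ofReal_mul (by positivity)]
    exact ENNReal.ofReal_le_ofReal k
  have him : ∀ β, f (pt l c x₀ β) = bin β := by
    intro β
    have hx' : ∃ β', pt l c x₀ β' = pt l c x₀ β := ⟨β, rfl⟩
    have e1 : f (pt l c x₀ β) = bin hx'.choose := dif_pos hx'
    rw [e1]
    have k := bin_holder hl hl2 hc x₀ (NNReal.coe_pos.2 hr) hlr hx'.choose β
    rw [hx'.choose_spec, dist_self, Real.zero_rpow (NNReal.coe_ne_zero.2 hr.ne'), mul_zero] at k
    exact dist_le_zero.1 k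
  have h1 := key.dimH_image_le hr
  have h2 : (interior (f '' range (pt l c x₀))).Nonempty := by
    refine ⟨fun _ => 1 / 2, ?_⟩
    rw [mem_interior]
    refine ⟨ball (fun _ => 1 / 2) (1 / 2), ?_, isOpen_ball, mem_ball_self (by norm_num)⟩
    intro y hy
    rw [mem_ball, dist_pi_lt_iff (by norm_num)] at hy
    have hy2 : ∀ i, y i ∈ Icc (0 : ℝ) 1 := by
      intro i
      have := hy i
      rw [Real.dist_eq, abs_lt] at this
      constructor <;> linarith [this.1, this.2]
    choose β hβ using fun i => Real.ofDigits_SurjOn (b := 2) (by norm_num) (hy2 i)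
    refine ⟨pt l c x₀ β, mem_range_self _, ?_⟩
    rw [him]
    funext i
    exact (hβ i).2
  rw [Real.dimH_of_nonempty_interior h2, Module.finrank_fin_fun] at h1
  rwa [ENNReal.le_div_iff_mul_le (Or.inl (by exact_mod_cast hr.ne')) (Or.inl (by simp))] at h1

/-- extension of a word by zeros -/
def extw {N n : ℕ} (w : Fin N → Fin n → Fin 2) : Fin N → ℕ → Fin 2 := fun i k =>
  if h : k < n then w i ⟨k, h⟩ else 0

theorem near_sub {N : ℕ} {l c : ℝ} (hl : 0 < l) (hl2 : l < 1 / 2) (hc : 0 < c) (x₀ : E N) (n : ℕ) :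
    {x : E N | infDist x (range (pt l c x₀)) ≤ l ^ n} ⊆
      ⋃ w : Fin N → Fin n → Fin 2, ball (pt l c x₀ (extw w)) (l ^ n * (2 + N * (c * 2))) := by
  intro x hx
  have hne : (range (pt l c x₀)).Nonempty := range_nonempty _
  have hp : 0 < l ^ n := by positivity
  have hx2 : infDist x (range (pt l c x₀)) < 2 * l ^ n := by
    rw [mem_setOf_eq] at hx
    linarith
  rw [infDist_lt_iff hne] at hx2
  obtain ⟨y, ⟨β, rfl⟩, hy⟩ := hx2
  rw [mem_iUnion]
  refine ⟨fun i k => β i k, ?_⟩
  rw [mem_ball]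
  have h1 := pt_close hl hl2 hc x₀ n β (extw (n := n) fun i k => β i k) (by
    intro i k hk
    simp only [extw, dif_pos hk])
  calc dist x (pt l c x₀ (extw fun i k => β i k)) ≤ dist x (pt l c x₀ β) +
        dist (pt l c x₀ β) (pt l c x₀ (extw fun i k => β i k)) := dist_triangle _ _ _
    _ < 2 * l ^ n + N * (c * (2 * l ^ n)) := by linarith
    _ = l ^ n * (2 + N * (c * 2)) := by ring

/-- the constant -/
def cK (N : ℕ) (c : ℝ) : ℝ≥0∞ :=
  ENNReal.ofReal ((2 + N * (c * 2)) ^ N) * volume (ball (0 : E N) 1)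

theorem cK_lt (N : ℕ) (c : ℝ) : cK N c < ⊤ :=
  ENNReal.mul_lt_top ENNReal.ofReal_lt_top measure_ball_lt_top

theorem vol_near {N : ℕ} {l c : ℝ} (hl : 0 < l) (hl2 : l < 1 / 2) (hc : 0 < c)
    (x₀ : E N) (n : ℕ) :
    volume {x : E N | infDist x (range (pt l c x₀)) ≤ l ^ n} ≤
      cK N c * ENNReal.ofReal ((2 * l) ^ N) ^ n := by
  have hK : (0 : ℝ) < 2 + N * (c * 2) := by positivity
  refine (measure_mono (near_sub hl hl2 hc x₀ n)).trans ?_
  refine (measure_iUnion_fintype_le _ _).trans ?_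
  have h1 : ∀ w : Fin N → Fin n → Fin 2,
      volume (ball (pt l c x₀ (extw w)) (l ^ n * (2 + N * (c * 2)))) =
      ENNReal.ofReal ((l ^ n * (2 + N * (c * 2))) ^ N) * volume (ball (0 : E N) 1) := by
    intro w
    rw [Measure.addHaar_ball_of_pos volume _ (by positivity), finrank_euclideanSpace,
      Fintype.card_fin]
  simp only [h1]
  rw [Finset.sum_const, Finset.card_univ, nsmul_eq_mul]
  have h2 : Fintype.card (Fin N → Fin n → Fin 2) = (2 ^ n) ^ N := by
    simp [Fintype.card_fin]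
  rw [h2, mul_pow, ENNReal.ofReal_mul (by positivity)]
  have h3 : (((2 ^ n) ^ N : ℕ) : ℝ≥0∞) = ENNReal.ofReal ((2 ^ n) ^ N) := by
    rw [← ENNReal.ofReal_natCast]
    push_cast
    rfl
  rw [h3, ← ENNReal.ofReal_pow (by positivity)]
  have h4 : ((2 * l) ^ N) ^ n = (2 ^ n) ^ N * (l ^ n) ^ N := by
    rw [mul_pow, mul_pow, ← pow_mul, ← pow_mul, ← pow_mul, ← pow_mul, mul_comm N n]
  rw [h4, ENNReal.ofReal_mul (by positivity), cK]
  refine le_of_eq ?_
  ring

theorem pow_bound {l b d : ℝ} (hl : 0 < l) (hl1 : l < 1) (hb : 0 ≤ b) (hd : 0 ≤ d) :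
    ENNReal.ofReal (d ^ (-b)) ≤ 1 + ∑' n : ℕ, ENNReal.ofReal (l ^ (-b * (n + 1 : ℝ))) *
      (if d ≤ l ^ n then 1 else 0) := by
  rcases hd.eq_or_lt with rfl | hd0
  · refine le_trans ?_ (self_le_add_right _ _)
    rw [ENNReal.ofReal_le_one]
    rcases hb.eq_or_lt with rfl | hb0
    · simp
    · rw [Real.zero_rpow (by linarith)]; exact zero_le_one
  rcases le_or_gt 1 d with h1 | h1
  · refine le_trans ?_ (self_le_add_right _ _)
    rw [ENNReal.ofReal_le_one]
    exact Real.rpow_le_one_of_one_le_of_nonpos h1 (by linarith)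
  · obtain ⟨n, hn1, hn2⟩ := exists_nat_pow_near_of_lt_one hd0 h1.le hl hl1
    refine le_trans ?_ (le_add_self)
    refine le_trans ?_ (ENNReal.le_tsum n)
    rw [if_pos hn2, mul_one]
    apply ENNReal.ofReal_le_ofReal
    have h2 : l ^ (-b * (n + 1 : ℝ)) = (l ^ (n + 1)) ^ (-b) := by
      rw [← Real.rpow_natCast, ← Real.rpow_mul hl.le]
      push_cast
      ring_nf
    rw [h2]
    exact Real.rpow_le_rpow_of_nonpos (by positivity) hn1.le (by linarith)

theorem cantor_thm : S_CANTOR := by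
  intro N s b ρ x₀ hN hs hb hsb hρ
  have hN0 : (0 : ℝ) < N := by exact_mod_cast hN
  have hNs : 0 < (N : ℝ) / s := by positivity
  have h1N : 1 < (N : ℝ) / s := by
    rw [one_lt_div hs]; linarith
  set l : ℝ := 2 ^ (-((N : ℝ) / s)) with hl_def
  have hl : 0 < l := by positivity
  have hl2 : l < 1 / 2 := by
    rw [hl_def, show (1 / 2 : ℝ) = 2 ^ (-(1 : ℝ)) by rw [Real.rpow_neg_one]; norm_num]
    exact Real.rpow_lt_rpow_of_exponent_lt (by norm_num) (by linarith)
  set c : ℝ := ρ / (2 * N) with hc_def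
  have hc : 0 < c := by positivity
  set r : ℝ≥0 := ⟨s / N, by positivity⟩ with hr_def
  have hr : 0 < r := by
    rw [← NNReal.coe_pos]
    show 0 < s / N
    positivity
  have hlr : l ^ (r : ℝ) = 1 / 2 := by
    show l ^ (s / N) = 1 / 2
    rw [hl_def, ← Real.rpow_mul (by norm_num)]
    have : -((N : ℝ) / s) * (s / N) = -1 := by field_simp
    rw [this, Real.rpow_neg_one]
    norm_num
  have hne : (range (pt l c x₀)).Nonempty := range_nonempty _
  have hcomp : IsCompact (range (pt l c x₀)) := isCompact_range (pt_cont hl hl2 hc x₀)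
  have hq1 : (2 * l) ^ N < 1 := pow_lt_one₀ (by positivity) (by linarith) (by omega)
  refine ⟨range (pt l c x₀), hcomp, hne, ?_, ?_, ?_, ?_⟩
  · rintro x ⟨β, rfl⟩
    rw [mem_closedBall]
    refine (pt_norm hl hl2 hc x₀ β).trans (le_of_eq ?_)
    rw [hc_def]
    field_simp
  · -- volume zero
    have h1 : ∀ n : ℕ, volume (range (pt l c x₀)) ≤ cK N c * ENNReal.ofReal ((2 * l) ^ N) ^ n := by
      intro n
      refine le_trans (measure_mono ?_) (vol_near hl hl2 hc x₀ n)
      intro x hx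
      rw [mem_setOf_eq, infDist_zero_of_mem hx]
      positivity
    have h2 : Tendsto (fun n : ℕ => cK N c * ENNReal.ofReal ((2 * l) ^ N) ^ n) atTop (𝓝 0) := by
      have h3 := ENNReal.tendsto_pow_atTop_nhds_zero_of_lt_one
        (r := ENNReal.ofReal ((2 * l) ^ N)) (by
          rw [← ENNReal.ofReal_one]
          exact (ENNReal.ofReal_lt_ofReal_iff zero_lt_one).2 hq1)
      have h4 := ENNReal.Tendsto.const_mul h3 (Or.inr (cK_lt N c).ne)
      rwa [mul_zero] at h4
    exact le_antisymm (ge_of_tendsto' h2 h1) bot_le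
  · have h1 := dimH_range_pt hN hl hl2 hc x₀ hr hlr
    refine le_trans (le_of_eq ?_) h1
    have h2 : (r : ℝ≥0∞) = ENNReal.ofReal (s / N) := by
      rw [ENNReal.ofReal, Real.toNNReal_of_nonneg (by positivity)]
      rfl
    rw [h2, ← ENNReal.ofReal_natCast, ← ENNReal.ofReal_mul (by positivity)]
    congr 1
    field_simp
  · intro R
    have hmeas : ∀ n : ℕ, MeasurableSet {x : E N | infDist x (range (pt l c x₀)) ≤ l ^ n} :=
      fun n => (isClosed_le (continuous_infDist_pt _) continuous_const).measurableSet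
    calc ∫⁻ x in ball x₀ R, ENNReal.ofReal (infDist x (range (pt l c x₀)) ^ (-b))
        ≤ ∫⁻ x in ball x₀ R, (1 + ∑' n : ℕ, ENNReal.ofReal (l ^ (-b * (n + 1 : ℝ))) *
          ({x : E N | infDist x (range (pt l c x₀)) ≤ l ^ n}.indicator 1 x)) := by
          refine lintegral_mono fun x => ?_
          refine (pow_bound hl (by linarith) hb infDist_nonneg).trans (le_of_eq ?_)
          congr 1
      _ = volume (ball x₀ R) + ∑' n : ℕ, ENNReal.ofReal (l ^ (-b * (n + 1 : ℝ))) *
          (volume.restrict (ball x₀ R)) {x : E N | infDist x (range (pt l c x₀)) ≤ l ^ n} := by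
          rw [lintegral_add_left measurable_const, lintegral_tsum]
          · congr 1
            · simp
            · refine tsum_congr fun n => ?_
              rw [lintegral_const_mul _ (measurable_one.indicator (hmeas n)),
                lintegral_indicator_one (hmeas n)]
          · intro n
            exact ((measurable_one.indicator (hmeas n)).const_mul _).aemeasurable
      _ ≤ volume (ball x₀ R) + ∑' n : ℕ, (ENNReal.ofReal (l ^ (-b)) * cK N c) *
          ENNReal.ofReal (l ^ (-b) * (2 * l) ^ N) ^ n := by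
          refine add_le_add le_rfl (ENNReal.tsum_le_tsum fun n => ?_)
          refine (mul_le_mul_right ((Measure.restrict_apply_le _ _).trans
            (vol_near hl hl2 hc x₀ n)) _).trans (le_of_eq ?_)
          have e1 : l ^ (-b * (n + 1 : ℝ)) = l ^ (-b) * (l ^ (-b)) ^ n := by
            rw [mul_add, mul_one, Real.rpow_add hl, Real.rpow_mul hl.le, Real.rpow_natCast]
            ring
          rw [e1, ENNReal.ofReal_mul (by positivity), ENNReal.ofReal_mul (by positivity),
            mul_pow, ENNReal.ofReal_pow (by positivity)]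
          ring
      _ < ⊤ := by
          refine ENNReal.add_lt_top.2 ⟨measure_ball_lt_top, ?_⟩
          rw [ENNReal.tsum_mul_left, ENNReal.tsum_geometric]
          refine ENNReal.mul_lt_top (ENNReal.mul_lt_top ENNReal.ofReal_lt_top (cK_lt N c)) ?_
          rw [ENNReal.inv_lt_top]
          rw [tsub_pos_iff_lt, ← ENNReal.ofReal_one]
          refine (ENNReal.ofReal_lt_ofReal_iff zero_lt_one).2 ?_
          have e2 : (2 : ℝ) ^ N = l ^ (-s) := by
            rw [hl_def, ← Real.rpow_mul (by norm_num), ← Real.rpow_natCast]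
            congr 1
            field_simp
          rw [mul_pow, e2, ← Real.rpow_natCast l N, ← Real.rpow_add hl, ← Real.rpow_add hl]
          apply Real.rpow_lt_one hl.le (by linarith)
          linarith

end Helper46.SDim
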