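import Pool.Agent.Helper19.SDim.Spec

/-!
# SDim, part ITER
-/

set_option linter.all false

noncomputable section

open MeasureTheory Filter Set Metric
open scoped Topology ENNReal NNReal

namespace Helper46.SDim

open Helper19.SDim

theorem gam_pos {N : ℕ} {p : ℝ} (hN : 2 ≤ N) (hp : 1 < p) (hp2 : p < 2) : 0 < gam N p := by
  have h2 : (2 : ℝ) ≤ N := by exact_mod_cast hN
  unfold gam
  apply div_pos
  · exact mul_pos (by linarith) (by linarith)
  · linarith

theorem int_f {N : ℕ} {g R : ℝ} (hg : 0 < g) {u : E N → ℝ} {x₀ : E N}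
    (hu : AEStronglyMeasurable u (volume.restrict (ball x₀ R)))
    (hi : IntegrableOn (fun x => |u x| ^ g) (ball x₀ R)) {a : ℝ} (ha : 0 ≤ a) :
    IntegrableOn (fun x => (max (u x - a) 0) ^ g) (ball x₀ R) := by
  refine Integrable.mono' hi ?_ ?_
  · have h1 : AEStronglyMeasurable (fun x => max (u x - a) 0) (volume.restrict (ball x₀ R)) :=
      (hu.sub aestronglyMeasurable_const).sup aestronglyMeasurable_const
    exact (h1.aemeasurable.pow_const g).aestronglyMeasurable
  · refine Eventually.of_forall fun x => ?_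
    rw [Real.norm_eq_abs, abs_of_nonneg (Real.rpow_nonneg (le_max_right _ _) _)]
    apply Real.rpow_le_rpow (le_max_right _ _) _ hg.le
    refine max_le ?_ (abs_nonneg _)
    linarith [le_abs_self (u x)]

/-- summation of the recursion -/
theorem sum_bound (D T : ℕ → ℝ) (hD : ∀ j, 0 ≤ D j) (hT : ∀ j, 0 ≤ T j) (hs : Summable T)
    (h : ∀ j, D (j + 1) ≤ D j / 2 + T (j + 1)) (n : ℕ) :
    ∑ j ∈ Finset.range n, D j ≤ 2 * (D 0 + ∑' j, T j) := by
  have h1 : ∀ n, ∑ j ∈ Finset.range (n + 1), D j ≤
      D 0 + (∑ j ∈ Finset.range n, D j) / 2 + ∑ j ∈ Finset.range (n + 1), T j := by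
    intro n
    induction n with
    | zero => simp; exact hT 0
    | succ n ih =>
      rw [Finset.sum_range_succ, Finset.sum_range_succ (f := T),
        Finset.sum_range_succ (n := n) (f := D)]
      have h2 := h n
      have h3 : ∑ j ∈ Finset.range n, D j + D n = ∑ j ∈ Finset.range (n + 1), D j :=
        (Finset.sum_range_succ _ _).symm
      rw [h3]
      rw [← h3] at ih ⊢
      linarith
  have h2 : ∑ j ∈ Finset.range (n + 1), D j ≤ 2 * (D 0 + ∑' j, T j) := by
    have k1 := h1 n
    have k2 : ∑ j ∈ Finset.range n, D j ≤ ∑ j ∈ Finset.range (n + 1), D j :=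
      Finset.sum_le_sum_of_subset_of_nonneg (Finset.range_subset_range.2 (Nat.le_succ n))
        fun i _ _ => hD i
    have k3 : ∑ j ∈ Finset.range (n + 1), T j ≤ ∑' j, T j :=
      hs.sum_le_tsum _ fun i _ => hT i
    linarith
  refine le_trans ?_ h2
  exact Finset.sum_le_sum_of_subset_of_nonneg (Finset.range_subset_range.2 (Nat.le_succ n))
    fun i _ _ => hD i

theorem iter_thm (hSTEP : S_STEP) : S_ITER := by
  intro N p ψ w K C M ε₀ R u x₀ hN hp hp2 hA hC hM hε hR hu hi hE
  obtain ⟨δ, hδ, hδ1, hδv, C₁, hC₁, hstep⟩ := hSTEP N p ψ w K C hN hp hp2 hA hC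
  have hg := gam_pos hN hp hp2
  set g := gam N p with hgdef
  -- radii
  let rr : ℕ → ℝ := fun j => R / 2 ^ j
  have hrr : ∀ j, 0 < rr j := fun j => by positivity
  have hrrs : ∀ j, rr (j + 1) = rr j / 2 := fun j => by
    show R / 2 ^ (j + 1) = R / 2 ^ j / 2
    rw [pow_succ]
    field_simp
  have hrrR : ∀ j, rr j ≤ R := fun j => div_le_self hR.le (one_le_pow₀ (by norm_num))
  let I : ℕ → ℝ → ℝ := fun j a => ∫ x in ball x₀ (rr (j + 1)), (max (u x - a) 0) ^ g
  have hI : ∀ j a, 0 ≤ I j a := fun j a =>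
    integral_nonneg fun x => Real.rpow_nonneg (le_max_right _ _) _
  let dd : ℕ → ℝ → ℝ := fun j a => (I j a / (δ ^ g * (rr j) ^ N)) ^ (1 / g)
  have hdd : ∀ j a, 0 ≤ dd j a := fun j a => Real.rpow_nonneg (by
    have := hI j a; have := hrr j; positivity) _
  have hddp : ∀ j a, δ ^ g * (dd j a) ^ g * (rr j) ^ N = I j a := by
    intro j a
    have h1 : 0 < δ ^ g * (rr j) ^ N := by have := hrr j; positivity
    have h2 : (dd j a) ^ g = I j a / (δ ^ g * (rr j) ^ N) := by
      show ((I j a / (δ ^ g * (rr j) ^ N)) ^ (1 / g)) ^ g = _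
      rw [← Real.rpow_mul (div_nonneg (hI j a) h1.le), one_div_mul_cancel hg.ne', Real.rpow_one]
    have h3 : δ ^ g ≠ 0 := (Real.rpow_pos_of_pos hδ g).ne'
    have h4 : rr j ^ N ≠ 0 := (pow_pos (hrr j) N).ne'
    rw [h2, mul_assoc, div_mul_eq_mul_div, mul_div_assoc', mul_comm (I j a), ← mul_assoc,
      mul_div_cancel_left₀ _ h1.ne']
  let aa : ℕ → ℝ := fun n => Nat.rec 0 (fun j a => a + dd j a) n
  have haas : ∀ j, aa (j + 1) = aa j + dd j (aa j) := fun j => rfl
  let D : ℕ → ℝ := fun j => dd j (aa j)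
  have hD : ∀ j, 0 ≤ D j := fun j => hdd j _
  have haaS : ∀ n, aa n = ∑ j ∈ Finset.range n, D j := by
    intro n
    induction n with
    | zero => rfl
    | succ n ih => rw [Finset.sum_range_succ, haas, ← ih]
  have haa : ∀ n, 0 ≤ aa n := fun n => by
    rw [haaS]; exact Finset.sum_nonneg fun i _ => hD i
  have hint : ∀ (j : ℕ) {a : ℝ}, 0 ≤ a →
      IntegrableOn (fun x => (max (u x - a) 0) ^ g) (ball x₀ (rr j)) := fun j a ha =>
    (int_f hg hu hi ha).mono_set (ball_subset_ball (hrrR j))
  by_cases h0 : ∃ j, D j = 0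
  · obtain ⟨j, hj⟩ := h0
    refine ⟨aa j, fun r hr hcon => ?_⟩
    have h1 : I j (aa j) = 0 := by
      rw [← hddp j (aa j)]
      have : dd j (aa j) = 0 := hj
      rw [this, Real.zero_rpow hg.ne']
      ring
    have h2 := (setIntegral_eq_zero_iff_of_nonneg_ae
      (Eventually.of_forall fun x => Real.rpow_nonneg (le_max_right (u x - aa j) 0) g)
      (hint (j + 1) (haa j))).1 h1
    -- on a small ball both hold
    set s := min r (rr (j + 1)) with hs
    have hs0 : 0 < s := lt_min hr (hrr _)
    have k1 := ae_restrict_of_ae_restrict_of_subset (ball_subset_ball (min_le_left r (rr (j + 1))))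
      hcon
    have k2 := ae_restrict_of_ae_restrict_of_subset
      (ball_subset_ball (min_le_right r (rr (j + 1)))) h2
    have k3 : ∀ᵐ x ∂(volume.restrict (ball x₀ s)), False := by
      filter_upwards [k1, k2] with x hx1 hx2
      have h5 : (0 : ℝ) < (max (u x - aa j) 0) ^ g :=
        Real.rpow_pos_of_pos (lt_max_of_lt_left (by linarith)) g
      have h6 : (max (u x - aa j) 0) ^ g = 0 := hx2
      rw [h6] at h5
      exact lt_irrefl _ h5
    rw [ae_iff] at k3
    simp only [not_false_eq_true, setOf_true, Measure.restrict_apply_univ] at k3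
    exact (measure_ball_pos volume x₀ hs0).ne' k3
  · push Not at h0
    have hDp : ∀ j, 0 < D j := fun j => lt_of_le_of_ne (hD j) (Ne.symm (h0 j))
    have hp1 : 0 < p - 1 := by linarith
    let T : ℕ → ℝ := fun j => (C₁ * M * (rr j) ^ ε₀) ^ (1 / (p - 1))
    have hT : ∀ j, 0 ≤ T j := fun j => Real.rpow_nonneg (by
      have := hrr j; positivity) _
    have hTs : Summable T := by
      set q : ℝ := (1 / 2) ^ (ε₀ / (p - 1)) with hq
      have hq0 : 0 < q := by positivity
      have hq1 : q < 1 := Real.rpow_lt_one (by norm_num) (by norm_num) (by positivity)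
      have h1 : T = fun j => (C₁ * M * R ^ ε₀) ^ (1 / (p - 1)) * q ^ j := by
        funext j
        show (C₁ * M * (R / 2 ^ j) ^ ε₀) ^ (1 / (p - 1)) = _
        have h2 : (R / 2 ^ j) ^ ε₀ = R ^ ε₀ * ((1 / 2) ^ ε₀) ^ j := by
          have : R / 2 ^ j = R * (1 / 2) ^ j := by rw [one_div, inv_pow]; rfl
          rw [this, Real.mul_rpow hR.le (by positivity), ← Real.rpow_natCast (1 / 2) j,
            ← Real.rpow_mul (by norm_num), mul_comm (j : ℝ), Real.rpow_mul (by norm_num),
            Real.rpow_natCast]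
        rw [h2, ← mul_assoc, Real.mul_rpow (by positivity) (by positivity)]
        congr 1
        rw [hq, ← Real.rpow_natCast, ← Real.rpow_natCast, ← Real.rpow_mul (by positivity),
          ← Real.rpow_mul (by norm_num), ← Real.rpow_mul (by norm_num)]
        congr 1
        field_simp
      rw [h1]
      exact (summable_geometric_of_lt_one hq0.le hq1).mul_left _
    have hrec : ∀ j, D (j + 1) ≤ D j / 2 + T (j + 1) := by
      intro j
      rcases lt_or_ge (2 * D (j + 1)) (D j) with hlt | hge
      · have := hT (j + 1)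
        linarith
      · have hr1 := hrr (j + 1)
        have e1 := hE (rr (j + 1)) (aa (j + 1)) (D (j + 1)) hr1 (hrrR (j + 1)) (haa (j + 1)) (hDp (j + 1))
        have k := hstep u x₀ (rr (j + 1)) (aa j) (D j) (aa (j + 1)) (D (j + 1))
          (M * (rr (j + 1)) ^ (N - p + ε₀)) hr1 (haa j) (hDp j) (haas j) (hDp (j + 1)) hge
          (hu.mono_measure (Measure.restrict_mono (ball_subset_ball (hrrR _)) le_rfl))
          (hi.mono_set (ball_subset_ball (hrrR _)))
          (by
            have h1 := hddp j (aa j)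
            rw [hrrs, mul_div_cancel₀ _ (two_ne_zero)]
            rw [← hrrs]
            exact h1.symm)
          (by
            have h1 := hddp (j + 1) (aa (j + 1))
            rw [← hrrs]
            exact h1.symm)
          e1.1 e1.2
        have h5 : (rr (j + 1)) ^ (p - N) * (M * (rr (j + 1)) ^ (N - p + ε₀)) =
            M * (rr (j + 1)) ^ ε₀ := by
          rw [mul_left_comm, ← Real.rpow_add hr1]
          congr 2
          ring
        rw [h5, ← mul_assoc] at k
        have h6 : D (j + 1) ≤ T (j + 1) := by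
          have h7 : D (j + 1) = ((D (j + 1)) ^ (p - 1)) ^ (1 / (p - 1)) := by
            rw [← Real.rpow_mul (hD _), mul_one_div_cancel hp1.ne', Real.rpow_one]
          rw [h7]
          exact Real.rpow_le_rpow (Real.rpow_nonneg (hD _) _) k (by positivity)
        have := hD j
        linarith
    set A := 2 * (D 0 + ∑' j, T j) with hAdef
    have hAbd : ∀ n, aa n ≤ A := fun n => by
      rw [haaS]; exact sum_bound D T hD hT hTs hrec n
    refine ⟨A, fun r hr hcon => ?_⟩
    obtain ⟨j, hj⟩ : ∃ j : ℕ, rr (j + 1) ≤ r := by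
      obtain ⟨n, hn⟩ := exists_pow_lt_of_lt_one (div_pos hr hR) (y := (1 / 2 : ℝ)) (by norm_num)
      refine ⟨n, ?_⟩
      have h1 : rr (n + 1) ≤ R * (1 / 2) ^ n := by
        show R / 2 ^ (n + 1) ≤ _
        rw [one_div, inv_pow, ← div_eq_mul_inv]
        exact div_le_div_of_nonneg_left hR.le (by positivity)
          (pow_le_pow_right₀ (by norm_num) (Nat.le_succ n))
      rw [lt_div_iff₀ hR] at hn
      linarith
    have k1 := ae_restrict_of_ae_restrict_of_subset (ball_subset_ball (x := x₀) hj) hcon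
    -- lower bound of the integral
    have h2 : (volume (ball x₀ (rr (j + 1)))).toReal * (D j) ^ g ≤ I j (aa j) := by
      have h3 : ∫ x in ball x₀ (rr (j + 1)), (D j) ^ g ≤ I j (aa j) := by
        refine integral_mono_ae (integrableOn_const (by
          exact measure_ball_lt_top.ne)) (hint (j + 1) (haa j)) ?_
        filter_upwards [k1] with x hx
        apply Real.rpow_le_rpow (hD j) _ hg.le
        refine le_max_of_le_left ?_
        have h5 := hAbd (j + 1)
        rw [haas] at h5
        have h6 : dd j (aa j) = D j := rfl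
        linarith
      rw [setIntegral_const, smul_eq_mul] at h3
      exact h3
    have h4 : I j (aa j) = δ ^ g * (D j) ^ g * (rr j) ^ N := (hddp j (aa j)).symm
    rw [h4, Measure.addHaar_ball_of_pos volume _ (hrr _), finrank_euclideanSpace, Fintype.card_fin,
      ENNReal.toReal_mul, ENNReal.toReal_ofReal (by have := hrr (j + 1); positivity)] at h2
    have hDg : 0 < (D j) ^ g := Real.rpow_pos_of_pos (hDp j) g
    have h5 : (volume (ball (0 : E N) 1)).toReal ≤ 2 ^ N * δ ^ g := by
      have h6 : rr j = 2 * rr (j + 1) := by rw [hrrs]; ring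
      rw [h6, mul_pow] at h2
      have h7 : 0 < rr (j + 1) ^ N * (D j) ^ g := mul_pos (pow_pos (hrr _) N) hDg
      refine le_of_mul_le_mul_left ?_ h7
      calc rr (j + 1) ^ N * D j ^ g * (volume (ball (0 : E N) 1)).toReal
          = rr (j + 1) ^ N * (volume (ball (0 : E N) 1)).toReal * D j ^ g := by ring
        _ ≤ δ ^ g * D j ^ g * (2 ^ N * rr (j + 1) ^ N) := h2
        _ = rr (j + 1) ^ N * D j ^ g * (2 ^ N * δ ^ g) := by ring
    have h6 : volume (ball (0 : E N) 1) ≤ ENNReal.ofReal (2 ^ N * δ ^ g) := by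
      rw [ENNReal.le_ofReal_iff_toReal_le measure_ball_lt_top.ne (by positivity)]
      exact h5
    exact absurd hδv (not_lt.2 h6)

end Helper46.SDim
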